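import Mathlib

/-!
# Two-sorted class theory with urelements: structures, formulas and axioms
-/

set_option autoImplicit false

namespace Pool.Agent.Lib_MP_0641b4_lc

/-- A structure for two-sorted class theory with urelements: first-order objects, classes,
membership between first-order objects, the urelement predicate, and membership of a first-order
object in a class. -/
structure Str where
  /-- first-order objects (sets and urelements) -/
  Obj : Type 1
  /-- classes -/
  Cls : Type 1
  /-- `mem x y`: the object `x` is a member of the object `y` -/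
  mem : Obj → Obj → Prop
  /-- `Ur x`: the object `x` is an urelement -/
  Ur : Obj → Prop
  /-- `memC x C`: the object `x` is a member of the class `C` -/
  memC : Obj → Cls → Prop

/-- Formulas of the two-sorted language, with `n` free object variables and `m` free class
variables. In `all φ` (`allC φ`) the quantified variable is variable number `0` of `φ`. -/
inductive Fml : ℕ → ℕ → Type
  /-- equality of two objects -/
  | eq {n m : ℕ} (i j : Fin n) : Fml n m
  /-- membership between objects -/
  | mem {n m : ℕ} (i j : Fin n) : Fml n m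
  /-- being an urelement -/
  | ur {n m : ℕ} (i : Fin n) : Fml n m
  /-- equality of two classes -/
  | eqC {n m : ℕ} (i j : Fin m) : Fml n m
  /-- membership of an object in a class -/
  | memC {n m : ℕ} (i : Fin n) (j : Fin m) : Fml n m
  /-- negation -/
  | neg {n m : ℕ} (φ : Fml n m) : Fml n m
  /-- conjunction -/
  | and {n m : ℕ} (φ ψ : Fml n m) : Fml n m
  /-- universal quantification over objects -/
  | all {n m : ℕ} (φ : Fml (n + 1) m) : Fml n m
  /-- universal quantification over classes -/
  | allC {n m : ℕ} (φ : Fml n (m + 1)) : Fml n m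

namespace Str

/-- Satisfaction of a formula under assignments `v` for the object variables and `V` for the
class variables. -/
def Sat (M : Str) : {n m : ℕ} → Fml n m → (Fin n → M.Obj) → (Fin m → M.Cls) → Prop
  | _, _, .eq i j, v, _ => v i = v j
  | _, _, .mem i j, v, _ => M.mem (v i) (v j)
  | _, _, .ur i, v, _ => M.Ur (v i)
  | _, _, .eqC i j, _, V => V i = V j
  | _, _, .memC i j, v, V => M.memC (v i) (V j)
  | _, _, .neg φ, v, V => ¬ M.Sat φ v V
  | _, _, .and φ ψ, v, V => M.Sat φ v V ∧ M.Sat ψ v V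
  | _, _, .all φ, v, V => ∀ x : M.Obj, M.Sat φ (Fin.cons x v) V
  | _, _, .allC φ, v, V => ∀ C : M.Cls, M.Sat φ v (Fin.cons C V)

variable (M : Str)

/-- `x` is a set, that is, not an urelement. -/
def IsSet (x : M.Obj) : Prop := ¬ M.Ur x

/-- `p` is the unordered pair `{a, b}`. -/
def IsPair (a b p : M.Obj) : Prop := M.IsSet p ∧ ∀ z, M.mem z p ↔ z = a ∨ z = b

/-- `p` is the (Kuratowski) ordered pair `(a, b) = {{a}, {a, b}}`. -/
def IsOPair (a b p : M.Obj) : Prop := ∃ s t, M.IsPair a a s ∧ M.IsPair a b t ∧ M.IsPair s t p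

/-- `R(a, b)` holds for the class relation `R`: the ordered pair `(a, b)` is a member of `R`. -/
def Rel (R : M.Cls) (a b : M.Obj) : Prop := ∃ p, M.IsOPair a b p ∧ M.memC p R

/-- `F` is a class function: it relates each object to at most one object. -/
def Functional (F : M.Cls) : Prop := ∀ x y y', M.Rel F x y → M.Rel F x y' → y = y'

/-- `x` is the empty set. -/
def IsEmptySet (x : M.Obj) : Prop := M.IsSet x ∧ ∀ z, ¬ M.mem z x

/-- `y` is the successor `x ∪ {x}` of `x`. -/
def IsSucc (x y : M.Obj) : Prop := M.IsSet y ∧ ∀ z, M.mem z y ↔ M.mem z x ∨ z = x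

/-- `w` is an inductive set: it contains the empty set and is closed under successor. -/
def IsInductive (w : M.Obj) : Prop :=
  M.IsSet w ∧ (∃ e, M.IsEmptySet e ∧ M.mem e w) ∧ ∀ n, M.mem n w → ∃ k, M.IsSucc n k ∧ M.mem k w

/-- `w` is `ω`, the least inductive set. -/
def IsOmega (w : M.Obj) : Prop :=
  M.IsInductive w ∧ ∀ w', M.IsInductive w' → ∀ n, M.mem n w → M.mem n w'

/-- `f(a) = b` for the set function `f`: the ordered pair `(a, b)` is a member of `f`. -/
def App (f a b : M.Obj) : Prop := ∃ p, M.IsOPair a b p ∧ M.mem p f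

/-- The set `f` is a function with domain the set `d`. -/
def IsFun (f d : M.Obj) : Prop :=
  M.IsSet f ∧ (∀ p, M.mem p f → ∃ a b, M.mem a d ∧ M.IsOPair a b p) ∧
    ∀ a, M.mem a d → ∃! b, M.App f a b

/-- `t` is the restriction of the function `f` to the set `d`. -/
def IsRestr (f d t : M.Obj) : Prop :=
  M.IsSet t ∧ ∀ p, M.mem p t ↔ M.mem p f ∧ ∃ a b, M.mem a d ∧ M.IsOPair a b p

/-- The axioms of `KMU_R`, Kelley-Morse class theory with urelements in its Replacement version. -/
structure KMU : Prop where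
  /-- urelements have no members -/
  urelement : ∀ a, M.Ur a → ∀ z, ¬ M.mem z a
  /-- Extensionality for sets -/
  extensionality : ∀ x y, M.IsSet x → M.IsSet y → (∀ z, M.mem z x ↔ M.mem z y) → x = y
  /-- Foundation -/
  foundation : ∀ x, (∃ z, M.mem z x) → ∃ y, M.mem y x ∧ ∀ z, M.mem z y → ¬ M.mem z x
  /-- Pairing -/
  pairing : ∀ a b, ∃ p, M.IsPair a b p
  /-- Union -/
  union : ∀ x, M.IsSet x → ∃ u, M.IsSet u ∧ ∀ z, M.mem z u ↔ ∃ y, M.mem y x ∧ M.mem z y
  /-- Power Set -/
  powerSet : ∀ x, M.IsSet x →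
    ∃ p, M.IsSet p ∧ ∀ z, M.mem z p ↔ (M.IsSet z ∧ ∀ w, M.mem w z → M.mem w x)
  /-- Infinity -/
  infinity : ∃ w, M.IsInductive w
  /-- Separation -/
  separation : ∀ (C : M.Cls) (x : M.Obj), M.IsSet x →
    ∃ y, M.IsSet y ∧ ∀ z, M.mem z y ↔ M.mem z x ∧ M.memC z C
  /-- Class Extensionality -/
  classExtensionality : ∀ C D : M.Cls, (∀ x, M.memC x C ↔ M.memC x D) → C = D
  /-- Full Comprehension: every formula, with class quantifiers and parameters of both sorts
  allowed, defines a class -/
  comprehension : ∀ (n m : ℕ) (φ : Fml (n + 1) m) (v : Fin n → M.Obj) (V : Fin m → M.Cls),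
    ∃ C : M.Cls, ∀ x, M.memC x C ↔ M.Sat φ (Fin.cons x v) V
  /-- Replacement: if `F` is a class function and `x` is a set then `F[x]` is a set -/
  replacement : ∀ F : M.Cls, M.Functional F → ∀ x, M.IsSet x →
    ∃ y, M.IsSet y ∧ ∀ z, M.mem z y ↔ ∃ w, M.mem w x ∧ M.Rel F w z

/-- Collection: for every set `w` and class relation `R` with `∀ x ∈ w, ∃ y, R(x, y)` there is a
set `v` with `∀ x ∈ w, ∃ y ∈ v, R(x, y)`. -/
def Collection : Prop :=
  ∀ (w : M.Obj) (R : M.Cls), M.IsSet w → (∀ x, M.mem x w → ∃ y, M.Rel R x y) →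
    ∃ v, M.IsSet v ∧ ∀ x, M.mem x w → ∃ y, M.mem y v ∧ M.Rel R x y

/-- Global Choice: there is a class function `G` with `G(x) ∈ x` for every nonempty set `x`. -/
def GlobalChoice : Prop :=
  ∃ G : M.Cls, M.Functional G ∧ ∀ x, M.IsSet x → (∃ z, M.mem z x) → ∃ y, M.mem y x ∧ M.Rel G x y

/-- `ω`-DC: if `R` is a class relation such that for every function `s` with domain some `n < ω`
there is `y` with `R(s, y)`, then there is a function `f` with domain `ω` such that
`R(f ↾ n, f(n))` for all `n < ω`. -/
def OmegaDC : Prop :=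
  ∀ R : M.Cls,
    (∀ w, M.IsOmega w → ∀ n, M.mem n w → ∀ s, M.IsFun s n → ∃ y, M.Rel R s y) →
      ∃ w f, M.IsOmega w ∧ M.IsFun f w ∧
        ∀ n, M.mem n w → ∃ t y, M.IsRestr f n t ∧ M.App f n y ∧ M.Rel R t y

end Str

end Pool.Agent.Lib_MP_0641b4_lc
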