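import Mathlib

set_option autoImplicit false

namespace Pool.Agent.Lib_MP_0641b4_lc

/-! ### An ordered field in which small sets are bounded -/

/-- Index type for the ultrapower. -/
abbrev J : Type 1 := Σ α : Type, α

/-- A regular ultrafilter on the finite subsets of `J`. -/
noncomputable def U : Ultrafilter (Finset J) := Ultrafilter.of Filter.atTop

theorem U_le : (U : Filter (Finset J)) ≤ Filter.atTop := Ultrafilter.of_le _

/-- The ultrapower of `ℚ`. -/
abbrev K : Type 1 := Filter.Germ (U : Filter (Finset J)) ℚ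

theorem K_bdd_fam {α : Type} (f : α → K) : ∃ r : K, ∀ a, f a < r := by
  classical
  have hrep : ∀ a, ∃ F : Finset J → ℚ, (F : K) = f a := fun a =>
    Quotient.exists_rep (f a)
  choose F hF using hrep
  -- representative for every `j : J`
  let F' : J → Finset J → ℚ := fun j =>
    if h : ∃ a : α, j = ⟨α, a⟩ then F h.choose else fun _ => 0
  let G : Finset J → ℚ := fun S => ∑ j ∈ S, (|F' j S| + 1)
  refine ⟨(G : K), fun a => ?_⟩
  rw [← hF a, Filter.Germ.coe_lt]
  have hmem : ∀ᶠ S in (U : Filter (Finset J)), (⟨α, a⟩ : J) ∈ S := by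
    apply Filter.Eventually.filter_mono U_le
    filter_upwards [Filter.eventually_ge_atTop ({⟨α, a⟩} : Finset J)] with S hS
    exact hS (Finset.mem_singleton_self _)
  filter_upwards [hmem] with S hS
  have hF' : F' ⟨α, a⟩ = F a := by
    have h : ∃ a' : α, (⟨α, a⟩ : J) = ⟨α, a'⟩ := ⟨a, rfl⟩
    simp only [F', dif_pos h]
    have h3 : a = h.choose := by simp
    rw [← h3]
  have h1 : |F' ⟨α, a⟩ S| + 1 ≤ G S :=
    Finset.single_le_sum (f := fun j => |F' j S| + 1) (fun j _ => by positivity) hS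
  rw [hF'] at h1
  have h2 := le_abs_self (F a S)
  linarith

section general

variable {X : Type 1} [Field X] [LinearOrder X] [IsStrictOrderedRing X]

/-- Every small subset of `X` is strictly bounded above. -/
def Big (X : Type 1) [LinearOrder X] : Prop := ∀ S : Set X, Small.{0} S → ∃ r, ∀ s ∈ S, s < r

omit [IsStrictOrderedRing X] [Field X] in
theorem big_of_fam (h : ∀ (α : Type) (f : α → X), ∃ r, ∀ a, f a < r) : Big X := by
  intro S hS
  obtain ⟨r, hr⟩ := h (Shrink.{0} S) (fun a => ((equivShrink S).symm a : X))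
  refine ⟨r, fun s hs => ?_⟩
  have := hr (equivShrink S ⟨s, hs⟩)
  simpa using this

theorem Big.below (hX : Big X) (S : Set X) (hS : Small.{0} S) (u : X) (h : ∀ s ∈ S, s < u) :
    ∃ r, (∀ s ∈ S, s < r) ∧ r < u := by
  obtain ⟨M, hM⟩ := hX ((fun s => (u - s)⁻¹) '' S) inferInstance
  have hM' : 0 < max M 1 := lt_of_lt_of_le one_pos (le_max_right _ _)
  refine ⟨u - (max M 1)⁻¹, fun s hs => ?_, ?_⟩
  · have h1 : (u - s)⁻¹ < max M 1 := lt_of_lt_of_le (hM _ ⟨s, hs, rfl⟩) (le_max_left _ _)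
    have h2 : 0 < u - s := sub_pos.mpr (h s hs)
    have h3 : (max M 1)⁻¹ < u - s := inv_lt_of_inv_lt₀ h2 h1
    linarith
  · have := inv_pos.mpr hM'
    linarith

/-- Scaling by `k` to the right of `c`. -/
def sc (c k : X) (x : X) : X := if x ≤ c then x else c + k * (x - c)

omit [IsStrictOrderedRing X] in
theorem sc_le {c k x : X} (h : x ≤ c) : sc c k x = x := if_pos h

omit [IsStrictOrderedRing X] in
theorem sc_gt {c k x : X} (h : c < x) : sc c k x = c + k * (x - c) := if_neg (not_le.mpr h)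

omit [IsStrictOrderedRing X] in
theorem sc_ge {c k x : X} (h : c ≤ x) : sc c k x = c + k * (x - c) := by
  rcases eq_or_lt_of_le h with rfl | h
  · rw [sc_le le_rfl]; ring
  · exact sc_gt h

theorem sc_strictMono (c : X) {k : X} (hk : 0 < k) : StrictMono (sc c k) := by
  intro x y hxy
  rcases le_or_gt y c with hy | hy
  · rw [sc_le hy, sc_le (hxy.le.trans hy)]; exact hxy
  · rw [sc_gt hy]
    rcases le_or_gt x c with hx | hx
    · rw [sc_le hx]
      have := mul_pos hk (sub_pos.mpr hy)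
      linarith
    · rw [sc_gt hx]
      have := mul_lt_mul_of_pos_left (sub_lt_sub_right hxy c) hk
      linarith

theorem sc_surj (c : X) {k : X} (hk : 0 < k) : Function.Surjective (sc c k) := by
  intro y
  rcases le_or_gt y c with hy | hy
  · exact ⟨y, sc_le hy⟩
  · refine ⟨c + k⁻¹ * (y - c), ?_⟩
    have : c < c + k⁻¹ * (y - c) := by
      have := mul_pos (inv_pos.mpr hk) (sub_pos.mpr hy)
      linarith
    rw [sc_gt this]
    field_simp
    ring

/-- The scaling as an order automorphism. -/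
noncomputable def scIso (c : X) {k : X} (hk : 0 < k) : X ≃o X :=
  (sc_strictMono c hk).orderIsoOfSurjective _ (sc_surj c hk)

@[simp] theorem scIso_apply (c : X) {k : X} (hk : 0 < k) (x : X) : scIso c hk x = sc c k x := rfl

/-- An automorphism supported on `(q, r)` which maps `b` to `p`. -/
theorem exists_pl {q b p r : X} (hqb : q < b) (hbr : b < r) (hqp : q < p) (hpr : p < r) :
    ∃ τ : X ≃o X, (∀ x, x ≤ q → τ x = x) ∧ (∀ x, r ≤ x → τ x = x) ∧ τ b = p := by
  have h1 : 0 < (p - q) / (b - q) := div_pos (by linarith) (by linarith)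
  have h2 : 0 < (r - p) / (r - b) := div_pos (by linarith) (by linarith)
  have h3 : 0 < ((r - p) / (r - b)) / ((p - q) / (b - q)) := div_pos h2 h1
  have h4 : 0 < ((r - p) / (r - b))⁻¹ := inv_pos.mpr h2
  have hbq : b - q ≠ 0 := ne_of_gt (sub_pos.mpr hqb)
  have hrb : r - b ≠ 0 := ne_of_gt (sub_pos.mpr hbr)
  have hpq : p - q ≠ 0 := ne_of_gt (sub_pos.mpr hqp)
  have hrp : r - p ≠ 0 := ne_of_gt (sub_pos.mpr hpr)
  have key : ∀ x, b ≤ x → sc p (((r - p) / (r - b)) / ((p - q) / (b - q)))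
      (sc q ((p - q) / (b - q)) x) = p + (r - p) / (r - b) * (x - b) := by
    intro x hx
    have hx1 : sc q ((p - q) / (b - q)) x = p + (p - q) / (b - q) * (x - b) := by
      rw [sc_ge (hqb.le.trans hx)]
      field_simp
      ring
    rw [hx1, sc_ge (by have := mul_nonneg h1.le (sub_nonneg.mpr hx); linarith)]
    field_simp
    ring
  refine ⟨((scIso q h1).trans (scIso p h3)).trans (scIso r h4), ?_, ?_, ?_⟩
  · intro x hx
    simp only [OrderIso.trans_apply, scIso_apply]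
    rw [sc_le hx, sc_le (hx.trans hqp.le), sc_le (hx.trans (hqp.trans hpr).le)]
  · intro x hx
    simp only [OrderIso.trans_apply, scIso_apply]
    rw [key x (hbr.le.trans hx)]
    have h5 : p + (r - p) / (r - b) * (x - b) = r + (r - p) / (r - b) * (x - r) := by
      field_simp
      ring
    rw [h5, sc_ge (by have := mul_nonneg h2.le (sub_nonneg.mpr hx); linarith)]
    field_simp
    ring
  · simp only [OrderIso.trans_apply, scIso_apply]
    rw [key b le_rfl, sub_self, mul_zero, add_zero, sc_le hpr.le]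

/-- The cut of `x` in `A`. -/
def cut (A : Set X) (x : X) : Set X := {a | a ∈ A ∧ a < x}

omit [Field X] [IsStrictOrderedRing X] in
theorem cut_fix {A : Set X} {τ : X ≃o X} (h : ∀ a ∈ A, τ a = a) (x : X) :
    cut A (τ x) = cut A x := by
  ext a
  simp only [cut, Set.mem_ofPred_eq]
  constructor
  · rintro ⟨h1, h2⟩
    refine ⟨h1, ?_⟩
    rw [← h a h1] at h2
    exact τ.lt_iff_lt.mp h2
  · rintro ⟨h1, h2⟩
    refine ⟨h1, ?_⟩
    rw [← h a h1]
    exact τ.lt_iff_lt.mpr h2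

omit [Field X] [IsStrictOrderedRing X] in
/-- Gluing of automorphisms along the cuts of `A`. -/
theorem exists_glue (A : Set X) (τ : Set X → (X ≃o X)) (h : ∀ c, ∀ a ∈ A, τ c a = a) :
    ∃ σ : X ≃o X, ∀ x, σ x = τ (cut A x) x := by
  have hmono : StrictMono (fun x => τ (cut A x) x) := by
    intro x y hxy
    show τ (cut A x) x < τ (cut A y) y
    by_cases hc : cut A x = cut A y
    · rw [hc]; exact (τ (cut A y)).lt_iff_lt.mpr hxy
    · have hsub : cut A x ⊆ cut A y := fun a ha => ⟨ha.1, ha.2.trans hxy⟩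
      have : ∃ a ∈ cut A y, a ∉ cut A x := by
        by_contra hcon
        push Not at hcon
        exact hc (Set.Subset.antisymm hsub hcon)
      obtain ⟨a, ⟨haA, hay⟩, hax⟩ := this
      have hxa : x ≤ a := by
        by_contra hcon
        exact hax ⟨haA, not_le.mp hcon⟩
      have h1 : τ (cut A x) x ≤ a := by
        rw [← h (cut A x) a haA]
        exact (τ (cut A x)).le_iff_le.mpr hxa
      have h2 : a < τ (cut A y) y := by
        conv_lhs => rw [← h (cut A y) a haA]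
        exact (τ (cut A y)).lt_iff_lt.mpr hay
      exact lt_of_le_of_lt h1 h2
  have hsurj : Function.Surjective (fun x => τ (cut A x) x) := by
    intro y
    refine ⟨(τ (cut A y)).symm y, ?_⟩
    show τ (cut A ((τ (cut A y)).symm y)) ((τ (cut A y)).symm y) = y
    have : cut A ((τ (cut A y)).symm y) = cut A y := by
      rw [← cut_fix (h (cut A y)) ((τ (cut A y)).symm y), OrderIso.apply_symm_apply]
    rw [this, OrderIso.apply_symm_apply]
  exact ⟨hmono.orderIsoOfSurjective _ hsurj, fun x => rfl⟩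

/-- The local pushing lemma, for one cut. -/
theorem push_one (hX : Big X) (A B D : Set X) (hA : A.IsWF) (hAs : Small.{0} A) (hB : B.IsWF)
    (hD : Small.{0} D) (c : Set X) :
    ∃ τ : X ≃o X, (∀ a ∈ A, τ a = a) ∧
      ∀ b ∈ B, b ∉ A → cut A b = c → ∀ d ∈ D, d ∉ A → cut A d = c → d < τ b := by
  by_cases hne : ∃ b ∈ B, b ∉ A ∧ cut A b = c
  swap
  · exact ⟨OrderIso.refl X, fun a _ => rfl, fun b hb hbA hbc => absurd ⟨b, hb, hbA, hbc⟩ hne⟩
  -- least element of `B` in the cut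
  have hB' : {b | b ∈ B ∧ b ∉ A ∧ cut A b = c}.IsWF := hB.mono (fun b hb => hb.1)
  have hne' : {b | b ∈ B ∧ b ∉ A ∧ cut A b = c}.Nonempty := hne
  set b := hB'.min hne' with hb_def
  obtain ⟨hbB, hbA, hbc⟩ : b ∈ B ∧ b ∉ A ∧ cut A b = c := hB'.min_mem hne'
  have hbmin : ∀ b' ∈ B, b' ∉ A → cut A b' = c → b ≤ b' := fun b' h1 h2 h3 =>
    hB'.min_le hne' ⟨h1, h2, h3⟩
  obtain ⟨q, hq1, hq2⟩ := hX.below (cut A b) (small_subset (s := A) (fun a ha => ha.1)) b
    (fun a ha => ha.2)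
  -- upper bound inside the cut
  have hup : ∃ p r : X, b < p ∧ p < r ∧ (∀ d ∈ D, d ∉ A → cut A d = c → d < p) ∧
      ∀ a ∈ A, b < a → r ≤ a := by
    have hSs : Small.{0} ↥(insert b {d | d ∈ D ∧ d ∉ A ∧ cut A d = c}) := by
      have : Small.{0} ↥({d | d ∈ D ∧ d ∉ A ∧ cut A d = c}) :=
        small_subset (s := D) (fun d hd => hd.1)
      infer_instance
    by_cases hau : ∃ a, a ∈ A ∧ b < a
    · have hA' : {a | a ∈ A ∧ b < a}.IsWF := hA.mono (fun a ha => ha.1)
      have hau' : {a | a ∈ A ∧ b < a}.Nonempty := hau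
      set u := hA'.min hau'
      obtain ⟨huA, hbu⟩ : u ∈ A ∧ b < u := hA'.min_mem hau'
      have humin : ∀ a ∈ A, b < a → u ≤ a := fun a h1 h2 => hA'.min_le hau' ⟨h1, h2⟩
      obtain ⟨r, hr1, hr2⟩ := hX.below _ hSs u (by
        rintro d (rfl | ⟨-, hdA, hdc⟩)
        · exact hbu
        · have h1 : u ∉ cut A d := by
            rw [hdc, ← hbc]
            rintro ⟨-, h⟩
            exact lt_asymm h hbu
          have h2 : d ≤ u := by
            by_contra hcon
            exact h1 ⟨huA, not_le.mp hcon⟩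
          exact lt_of_le_of_ne h2 (fun h => hdA (h ▸ huA)))
      obtain ⟨p, hp1, hp2⟩ := hX.below _ hSs r hr1
      exact ⟨p, r, hp1 b (Set.mem_insert _ _), hp2,
        fun d h1 h2 h3 => hp1 d (Set.mem_insert_of_mem _ ⟨h1, h2, h3⟩),
        fun a h1 h2 => (hr2.le.trans (humin a h1 h2))⟩
    · obtain ⟨p, hp1⟩ := hX _ hSs
      obtain ⟨r, hr1⟩ := exists_gt p
      exact ⟨p, r, hp1 b (Set.mem_insert _ _), hr1,
        fun d h1 h2 h3 => hp1 d (Set.mem_insert_of_mem _ ⟨h1, h2, h3⟩),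
        fun a h1 h2 => absurd ⟨a, h1, h2⟩ hau⟩
  obtain ⟨p, r, hbp, hpr, hDp, hrA⟩ := hup
  obtain ⟨τ, hτ1, hτ2, hτ3⟩ := exists_pl hq2 (hbp.trans hpr) (hq2.trans hbp) hpr
  refine ⟨τ, ?_, ?_⟩
  · intro a ha
    rcases lt_trichotomy a b with h | h | h
    · exact hτ1 a (hq1 a ⟨ha, h⟩).le
    · exact absurd (h ▸ ha) hbA
    · exact hτ2 a (hrA a ha h)
  · intro b' h1 h2 h3 d h4 h5 h6
    calc d < p := hDp d h4 h5 h6
      _ = τ b := hτ3.symm
      _ ≤ τ b' := τ.le_iff_le.mpr (hbmin b' h1 h2 h3)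

/-- The pushing lemma. -/
theorem push (hX : Big X) (A B D : Set X) (hA : A.IsWF) (hAs : Small.{0} A) (hB : B.IsWF)
    (hD : Small.{0} D) :
    ∃ σ : X ≃o X, (∀ a ∈ A, σ a = a) ∧
      ∀ b ∈ B, b ∉ A → ∀ d ∈ D, d ∉ A → cut A d = cut A b → d < σ b := by
  choose τ hτ1 hτ2 using push_one hX A B D hA hAs hB hD
  obtain ⟨σ, hσ⟩ := exists_glue A τ hτ1
  refine ⟨σ, fun a ha => by rw [hσ]; exact hτ1 _ a ha, ?_⟩
  intro b hb hbA d hd hdA hdb
  rw [hσ]
  exact hτ2 _ b hb hbA rfl d hd hdA hdb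

/-- Points outside `A` can be moved. -/
theorem move (hX : Big X) (A : Set X) (hA : A.IsWF) (hAs : Small.{0} A) (e : X) (he : e ∉ A) :
    ∃ σ : X ≃o X, (∀ a ∈ A, σ a = a) ∧ σ e ≠ e := by
  obtain ⟨σ, h1, h2⟩ := push hX A {e} {e} hA hAs (Set.finite_singleton e).isWF inferInstance
  exact ⟨σ, h1, fun h => absurd (h2 e rfl he e rfl he rfl) (by rw [h]; exact lt_irrefl _)⟩

omit [Field X] [IsStrictOrderedRing X] in
/-- A set in which every nonempty subset has a least element is well-founded. -/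
theorem isWF_of_min {V : Set X}
    (h : ∀ T ⊆ V, T.Nonempty → ∃ m ∈ T, ∀ t ∈ T, m ≤ t) : V.IsWF := by
  rw [Set.isWF_iff_no_descending_seq]
  intro f hf hfV
  obtain ⟨m, ⟨n, rfl⟩, hm⟩ := h (Set.range f) (by rintro _ ⟨n, rfl⟩; exact hfV n)
    (Set.range_nonempty f)
  exact absurd (hm (f (n + 1)) ⟨n + 1, rfl⟩) (not_le.mpr (hf (Nat.lt_succ_self n)))

/-- Simultaneous amalgamation. -/
theorem amalg (hX : Big X) (A : Set X) (hA : A.IsWF) (hAs : Small.{0} A) (ι : Type)
    (B : ι → Set X) (hB : ∀ i, (B i).IsWF) (hBs : ∀ i, Small.{0} (B i)) :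
    ∃ σ : ι → (X ≃o X), (∀ i, ∀ a ∈ A, σ i a = a) ∧ (⋃ i, σ i '' B i).IsWF := by
  classical
  -- well-order the index set
  let lt : ι → ι → Prop := WellOrderingRel
  have hlt : WellFounded lt := (inferInstance : IsWellOrder ι WellOrderingRel).wf
  have step : ∀ (i : ι) (g : ∀ j, lt j i → (X ≃o X)), ∃ s : X ≃o X, (∀ a ∈ A, s a = a) ∧
      ∀ b ∈ B i, b ∉ A → ∀ j (hj : lt j i), ∀ d ∈ (g j hj) '' (B j), d ∉ A →
        cut A d = cut A b → d < s b := by
    intro i g
    obtain ⟨σ, h1, h2⟩ := push hX A (B i) (⋃ j : {j // lt j i}, (g j.1 j.2) '' (B j.1)) hA hAs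
      (hB i) (by
        have : ∀ j : {j // lt j i}, Small.{0} ↥((g j.1 j.2) '' (B j.1)) := by
          intro j
          have := hBs j.1
          infer_instance
        infer_instance)
    refine ⟨σ, h1, ?_⟩
    intro b hb hbA j hj d hd hdA hdb
    exact h2 b hb hbA d (Set.mem_iUnion.mpr ⟨⟨j, hj⟩, hd⟩) hdA hdb
  let σ : ι → (X ≃o X) := hlt.fix (fun i g => Classical.choose (step i g))
  have hσeq : ∀ i, σ i = Classical.choose (step i (fun j _ => σ j)) := fun i => hlt.fix_eq _ i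
  have hσ1 : ∀ i, ∀ a ∈ A, σ i a = a := by
    intro i
    rw [hσeq i]
    exact (Classical.choose_spec (step i (fun j _ => σ j))).1
  have hσ2 : ∀ i, ∀ b ∈ B i, b ∉ A → ∀ j, lt j i → ∀ d ∈ (σ j) '' (B j), d ∉ A →
      cut A d = cut A b → d < σ i b := by
    intro i
    rw [hσeq i]
    exact (Classical.choose_spec (step i (fun j _ => σ j))).2
  refine ⟨σ, hσ1, ?_⟩
  -- well-foundedness of the union
  apply isWF_of_min
  intro T hT hTne
  by_contra hno
  push Not at hno
  -- elements of `A` above some element of `T`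
  let E : Set X := {a | a ∈ A ∧ ∃ t ∈ T, t < a}
  let T' : Set X := {t | t ∈ T ∧ ∀ a ∈ E, t < a}
  have hEWF : E.IsWF := hA.mono (fun a ha => ha.1)
  have hT'ne : T'.Nonempty := by
    by_cases hE : E.Nonempty
    · obtain ⟨-, t, htT, hta⟩ := hEWF.min_mem hE
      exact ⟨t, htT, fun a ha => lt_of_lt_of_le hta (hEWF.min_le hE ha)⟩
    · obtain ⟨t, ht⟩ := hTne
      exact ⟨t, ht, fun a ha => absurd ⟨a, ha⟩ hE⟩
  have hcutT' : ∀ t ∈ T', t ∉ A ∧ cut A t = {a | a ∈ A ∧ a ∉ E} := by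
    rintro t ⟨htT, htE⟩
    obtain ⟨t', ht'T, ht't⟩ := hno t htT
    have htA : t ∉ A := fun h => absurd (htE t ⟨h, t', ht'T, ht't⟩) (lt_irrefl _)
    refine ⟨htA, ?_⟩
    ext a
    constructor
    · rintro ⟨h1, h2⟩
      exact ⟨h1, fun h3 => absurd (htE a h3) (not_lt.mpr h2.le)⟩
    · rintro ⟨h1, h2⟩
      refine ⟨h1, ?_⟩
      rcases lt_trichotomy a t with h | h | h
      · exact h
      · exact absurd (h ▸ h1) htA
      · exact absurd ⟨h1, t, htT, h⟩ h2
  -- least index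
  have hI : {i | ∃ t ∈ T', t ∈ (σ i) '' (B i)}.Nonempty := by
    obtain ⟨t, ht⟩ := hT'ne
    obtain ⟨i, hi⟩ := Set.mem_iUnion.mp (hT ht.1)
    exact ⟨i, t, ht, hi⟩
  obtain ⟨i, ⟨ti, htiT', bi, hbi, hbiti⟩, himin⟩ := hlt.has_min _ hI
  have hBi : {b | b ∈ B i ∧ σ i b ∈ T'}.IsWF := (hB i).mono (fun b hb => hb.1)
  have hBine : {b | b ∈ B i ∧ σ i b ∈ T'}.Nonempty := ⟨bi, hbi, by rw [hbiti]; exact htiT'⟩
  obtain ⟨hb0B, hb0T'⟩ := hBi.min_mem hBine
  have hb0min : ∀ b ∈ B i, σ i b ∈ T' → hBi.min hBine ≤ b := fun b h1 h2 =>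
    hBi.min_le hBine ⟨h1, h2⟩
  set b0 := hBi.min hBine
  obtain ⟨t, htT, htlt⟩ := hno (σ i b0) hb0T'.1
  have htT' : t ∈ T' := ⟨htT, fun a ha => htlt.trans (hb0T'.2 a ha)⟩
  obtain ⟨j, b, hbB, hbt⟩ := Set.mem_iUnion.mp (hT htT)
  have hji : ¬ lt j i := himin j ⟨t, htT', b, hbB, hbt⟩
  rcases (inferInstance : IsWellOrder ι WellOrderingRel).trichotomous i j with h
  by_cases hij : lt i j
  · have hbA : b ∉ A := by
      intro h
      have h1 := hσ1 j b h
      rw [← hbt, h1] at htT'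
      exact (hcutT' _ htT').1 h
    have h1 := hσ2 j b hbB hbA i hij (σ i b0) ⟨b0, hb0B, rfl⟩ (hcutT' _ hb0T').1 (by
      rw [(hcutT' _ hb0T').2, ← cut_fix (hσ1 j) b, hbt, (hcutT' _ htT').2])
    rw [hbt] at h1
    exact lt_asymm h1 htlt
  · have hij' : i = j := h hij hji
    subst hij'
    have h1 := hb0min b hbB (by rw [hbt]; exact htT')
    have h2 : σ i b0 ≤ σ i b := (σ i).le_iff_le.mpr h1
    rw [hbt] at h2
    exact absurd h2 (not_le.mpr htlt)

end general

end Pool.Agent.Lib_MP_0641b4_lc
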