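import Mathlib

set_option autoImplicit false

namespace Pool.Agent.Lib_MP_0641b4_lc

/-! ### Sets with urelements from `X` -/

/-- Pre-sets with urelements from `X`. -/
inductive PreU (X : Type 1) : Type 1
  | atom : X → PreU X
  | mk : (α : Type) → (α → PreU X) → PreU X

namespace PreU

variable {X : Type 1}

/-- Extensional equality. -/
def Equiv : PreU X → PreU X → Prop
  | atom x, atom y => x = y
  | mk _ f, mk _ g => (∀ a, ∃ b, Equiv (f a) (g b)) ∧ (∀ b, ∃ a, Equiv (f a) (g b))
  | atom _, mk _ _ => False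
  | mk _ _, atom _ => False

theorem Equiv.refl : ∀ x : PreU X, Equiv x x
  | atom _ => rfl
  | mk _ f => ⟨fun a => ⟨a, Equiv.refl (f a)⟩, fun a => ⟨a, Equiv.refl (f a)⟩⟩

theorem Equiv.symm : ∀ {x y : PreU X}, Equiv x y → Equiv y x
  | atom _, atom _, h => Eq.symm h
  | mk _ _, mk _ _, h =>
    ⟨fun b => let ⟨a, ha⟩ := h.2 b; ⟨a, Equiv.symm ha⟩,
      fun a => let ⟨b, hb⟩ := h.1 a; ⟨b, Equiv.symm hb⟩⟩
  | atom _, mk _ _, h => h.elim
  | mk _ _, atom _, h => h.elim

theorem Equiv.trans : ∀ {x y z : PreU X}, Equiv x y → Equiv y z → Equiv x z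
  | atom _, atom _, atom _, h1, h2 => Eq.trans h1 h2
  | mk _ _, mk _ _, mk _ _, h1, h2 =>
    ⟨fun a => let ⟨b, hb⟩ := h1.1 a; let ⟨c, hc⟩ := h2.1 b; ⟨c, Equiv.trans hb hc⟩,
      fun c => let ⟨b, hb⟩ := h2.2 c; let ⟨a, ha⟩ := h1.2 b; ⟨a, Equiv.trans ha hb⟩⟩
  | atom _, atom _, mk _ _, _, h => h.elim
  | atom _, mk _ _, _, h, _ => h.elim
  | mk _ _, atom _, _, h, _ => h.elim
  | mk _ _, mk _ _, atom _, _, h => h.elim

/-- The setoid of extensional equality. -/
instance setoid (X : Type 1) : Setoid (PreU X) := ⟨Equiv, Equiv.refl, Equiv.symm, Equiv.trans⟩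

/-- The urelements in the transitive closure. -/
def supp : PreU X → Set X
  | atom x => {x}
  | mk _ f => ⋃ a, supp (f a)

theorem supp_congr : ∀ {x y : PreU X}, Equiv x y → supp x = supp y
  | atom x, atom y, h => by
    have h' : x = y := h
    rw [h']
  | mk _ f, mk _ g, h => by
    apply Set.Subset.antisymm
    · intro z hz
      obtain ⟨a, ha⟩ := Set.mem_iUnion.mp hz
      obtain ⟨b, hb⟩ := h.1 a
      exact Set.mem_iUnion.mpr ⟨b, by rw [← supp_congr hb]; exact ha⟩
    · intro z hz
      obtain ⟨b, hb⟩ := Set.mem_iUnion.mp hz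
      obtain ⟨a, ha⟩ := h.2 b
      exact Set.mem_iUnion.mpr ⟨a, by rw [supp_congr ha]; exact hb⟩
  | atom _, mk _ _, h => h.elim
  | mk _ _, atom _, h => h.elim

/-- The action of maps of urelements. -/
def map (σ : X → X) : PreU X → PreU X
  | atom x => atom (σ x)
  | mk α f => mk α (fun a => map σ (f a))

theorem map_congr (σ : X → X) : ∀ {x y : PreU X}, Equiv x y → Equiv (map σ x) (map σ y)
  | atom x, atom y, h => by
    have h' : x = y := h
    rw [h']
    exact Equiv.refl _
  | mk _ f, mk _ g, h =>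
    ⟨fun a => let ⟨b, hb⟩ := h.1 a; ⟨b, map_congr σ hb⟩,
      fun b => let ⟨a, ha⟩ := h.2 b; ⟨a, map_congr σ ha⟩⟩
  | atom _, mk _ _, h => h.elim
  | mk _ _, atom _, h => h.elim

/-- Membership. -/
def Mem (x : PreU X) : PreU X → Prop
  | atom _ => False
  | mk _ f => ∃ a, Equiv x (f a)

theorem mem_congr {x x' y y' : PreU X} (hx : Equiv x x') (hy : Equiv y y') :
    Mem x y → Mem x' y' := by
  match y, y', hy with
  | atom _, atom _, _ => exact id
  | mk _ f, mk _ g, h =>
    rintro ⟨a, ha⟩
    obtain ⟨b, hb⟩ := h.1 a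
    exact ⟨b, (hx.symm.trans ha).trans hb⟩

/-- Being an atom. -/
def IsAtom : PreU X → Prop
  | atom _ => True
  | mk _ _ => False

theorem isAtom_congr {x y : PreU X} (h : Equiv x y) : IsAtom x → IsAtom y := by
  match x, y, h with
  | atom _, atom _, _ => exact id
  | mk _ _, mk _ _, _ => exact id

end PreU

/-- The universe of sets with urelements from `X`. -/
def USet (X : Type 1) : Type 1 := Quotient (PreU.setoid X)

namespace USet

variable {X : Type 1}

/-- The urelement given by `x`. -/
def atom (x : X) : USet X := Quotient.mk _ (PreU.atom x)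

/-- A representative. -/
noncomputable def out (x : USet X) : PreU X := Quotient.out x

theorem out_eq (x : USet X) : (Quotient.mk _ x.out : USet X) = x := Quotient.out_eq x

theorem out_equiv (p : PreU X) : PreU.Equiv (out (Quotient.mk _ p)) p :=
  Quotient.exact (out_eq (Quotient.mk _ p))

/-- The set with members `f a`. -/
noncomputable def ofFam {α : Type} (f : α → USet X) : USet X :=
  Quotient.mk _ (PreU.mk α (fun a => out (f a)))

/-- Membership. -/
def mem (x y : USet X) : Prop :=
  Quotient.liftOn₂ x y PreU.Mem (fun _ _ _ _ h1 h2 =>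
    propext ⟨PreU.mem_congr h1 h2, PreU.mem_congr h1.symm h2.symm⟩)

/-- Being an urelement. -/
def IsAtom (x : USet X) : Prop :=
  Quotient.liftOn x PreU.IsAtom (fun _ _ h =>
    propext ⟨PreU.isAtom_congr h, PreU.isAtom_congr h.symm⟩)

/-- The urelements in the transitive closure. -/
def supp (x : USet X) : Set X := Quotient.liftOn x PreU.supp (fun _ _ h => PreU.supp_congr h)

/-- The action of maps of urelements. -/
def map (σ : X → X) (x : USet X) : USet X :=
  Quotient.liftOn x (fun p => Quotient.mk _ (PreU.map σ p))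
    (fun _ _ h => Quotient.sound (PreU.map_congr σ h))

theorem mk_eq_ofFam {α : Type} (f : α → PreU X) :
    (Quotient.mk _ (PreU.mk α f) : USet X) = ofFam (fun a => (Quotient.mk _ (f a) : USet X)) := by
  apply Quotient.sound
  exact ⟨fun a => ⟨a, (out_equiv (f a)).symm⟩, fun a => ⟨a, (out_equiv (f a)).symm⟩⟩

/-- Induction principle. -/
theorem induction {P : USet X → Prop} (h1 : ∀ x, P (atom x))
    (h2 : ∀ (α : Type) (f : α → USet X), (∀ a, P (f a)) → P (ofFam f)) : ∀ q, P q := by
  intro q
  induction q using Quotient.ind with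
  | _ p =>
    induction p with
    | atom x => exact h1 x
    | mk α f ih =>
      rw [mk_eq_ofFam]
      exact h2 α _ ih

theorem cases' (q : USet X) :
    (∃ x, q = atom x) ∨ ∃ (α : Type) (f : α → USet X), q = ofFam f := by
  induction q using induction with
  | h1 x => exact Or.inl ⟨x, rfl⟩
  | h2 α f _ => exact Or.inr ⟨α, f, rfl⟩

@[simp] theorem isAtom_atom (x : X) : IsAtom (atom x) := trivial

@[simp] theorem isAtom_ofFam {α : Type} (f : α → USet X) : ¬ IsAtom (ofFam f) := fun h => h

@[simp] theorem mem_atom (x : X) (z : USet X) : ¬ mem z (atom x) := by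
  induction z using Quotient.ind with
  | _ p => exact fun h => h

@[simp] theorem mem_ofFam {α : Type} (f : α → USet X) (z : USet X) :
    mem z (ofFam f) ↔ ∃ a, z = f a := by
  induction z using Quotient.ind with
  | _ p =>
    constructor
    · rintro ⟨a, ha⟩
      refine ⟨a, ?_⟩
      rw [← out_eq (f a)]
      exact Quotient.sound ha
    · rintro ⟨a, ha⟩
      refine ⟨a, ?_⟩
      rw [← out_eq (f a)] at ha
      exact Quotient.exact ha

theorem atom_injective : Function.Injective (atom : X → USet X) := by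
  intro x y h
  exact Quotient.exact h

theorem isAtom_iff (q : USet X) : IsAtom q ↔ ∃ x, q = atom x := by
  rcases cases' q with ⟨x, rfl⟩ | ⟨α, f, rfl⟩
  · simp
  · simp only [isAtom_ofFam, false_iff]
    rintro ⟨x, hx⟩
    have := isAtom_atom x
    rw [← hx] at this
    exact isAtom_ofFam f this

theorem ext {x y : USet X} (hx : ¬ IsAtom x) (hy : ¬ IsAtom y) (h : ∀ z, mem z x ↔ mem z y) :
    x = y := by
  rcases cases' x with ⟨x, rfl⟩ | ⟨α, f, rfl⟩
  · exact absurd (isAtom_atom x) hx
  rcases cases' y with ⟨y, rfl⟩ | ⟨β, g, rfl⟩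
  · exact absurd (isAtom_atom y) hy
  simp only [mem_ofFam] at h
  apply Quotient.sound
  refine ⟨fun a => ?_, fun b => ?_⟩
  · obtain ⟨b, hb⟩ := (h (f a)).mp ⟨a, rfl⟩
    refine ⟨b, ?_⟩
    show PreU.Equiv (out (f a)) (out (g b))
    rw [hb]; exact PreU.Equiv.refl _
  · obtain ⟨a, ha⟩ := (h (g b)).mpr ⟨b, rfl⟩
    refine ⟨a, ?_⟩
    show PreU.Equiv (out (f a)) (out (g b))
    rw [ha]; exact PreU.Equiv.refl _

@[simp] theorem supp_atom (x : X) : supp (atom x) = {x} := rfl

theorem supp_ofFam {α : Type} (f : α → USet X) : supp (ofFam f) = ⋃ a, supp (f a) := by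
  show ⋃ a, PreU.supp (out (f a)) = ⋃ a, supp (f a)
  congr 1
  funext a
  conv_rhs => rw [← out_eq (f a)]
  rfl

theorem supp_subset_of_mem {x y : USet X} (h : mem x y) : supp x ⊆ supp y := by
  rcases cases' y with ⟨y, rfl⟩ | ⟨β, g, rfl⟩
  · exact absurd h (mem_atom y x)
  · obtain ⟨a, rfl⟩ := (mem_ofFam g x).mp h
    rw [supp_ofFam]
    exact Set.subset_iUnion (fun a => supp (g a)) a

theorem small_supp (x : USet X) : Small.{0} (supp x) := by
  induction x using induction with
  | h1 x => rw [supp_atom]; infer_instance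
  | h2 α f ih => rw [supp_ofFam]; exact small_iUnion _

theorem small_mem (x : USet X) : Small.{0} {z | mem z x} := by
  rcases cases' x with ⟨x, rfl⟩ | ⟨β, g, rfl⟩
  · have : {z | mem z (atom x)} = ∅ := by
      ext z; simp
    rw [this]; infer_instance
  · have : {z | mem z (ofFam g)} = Set.range g := by
      ext z
      simp only [Set.mem_ofPred_eq, mem_ofFam, Set.mem_range]
      exact ⟨fun ⟨a, h⟩ => ⟨a, h.symm⟩, fun ⟨a, h⟩ => ⟨a, h.symm⟩⟩
    rw [this]; infer_instance

@[simp] theorem map_atom (σ : X → X) (x : X) : map σ (atom x) = atom (σ x) := rfl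

theorem map_ofFam (σ : X → X) {α : Type} (f : α → USet X) :
    map σ (ofFam f) = ofFam (fun a => map σ (f a)) := by
  show (Quotient.mk _ (PreU.mk α (fun a => PreU.map σ (out (f a)))) : USet X) = _
  rw [mk_eq_ofFam]
  congr 1
  funext a
  conv_rhs => rw [← out_eq (f a)]
  rfl

theorem map_map (σ τ : X → X) (x : USet X) : map σ (map τ x) = map (σ ∘ τ) x := by
  induction x using induction with
  | h1 x => rfl
  | h2 α f ih =>
    rw [map_ofFam, map_ofFam, map_ofFam]
    congr 1
    funext a
    exact ih a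

theorem map_id (x : USet X) : map id x = x := by
  induction x using induction with
  | h1 x => rfl
  | h2 α f ih =>
    rw [map_ofFam]
    congr 1
    funext a
    exact ih a

theorem map_congr_supp {σ τ : X → X} (x : USet X) (h : ∀ a ∈ supp x, σ a = τ a) :
    map σ x = map τ x := by
  induction x using induction with
  | h1 x => rw [map_atom, map_atom, h x rfl]
  | h2 α f ih =>
    rw [map_ofFam, map_ofFam]
    congr 1
    funext a
    apply ih a
    intro b hb
    apply h
    rw [supp_ofFam]
    exact Set.mem_iUnion.mpr ⟨a, hb⟩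

theorem supp_map (σ : X → X) (x : USet X) : supp (map σ x) = σ '' supp x := by
  induction x using induction with
  | h1 x => simp
  | h2 α f ih =>
    rw [map_ofFam, supp_ofFam, supp_ofFam, Set.image_iUnion]
    congr 1
    funext a
    exact ih a

theorem isAtom_map (σ : X → X) (x : USet X) : IsAtom (map σ x) ↔ IsAtom x := by
  rcases cases' x with ⟨x, rfl⟩ | ⟨β, g, rfl⟩
  · simp
  · rw [map_ofFam]; simp

theorem mem_map_of_mem (σ : X → X) {x y : USet X} (h : mem x y) : mem (map σ x) (map σ y) := by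
  rcases cases' y with ⟨y, rfl⟩ | ⟨β, g, rfl⟩
  · exact absurd h (mem_atom y x)
  · obtain ⟨a, rfl⟩ := (mem_ofFam g x).mp h
    rw [map_ofFam, mem_ofFam]
    exact ⟨a, rfl⟩

theorem wf_mem : WellFounded (mem : USet X → USet X → Prop) := by
  constructor
  intro x
  induction x using induction with
  | h1 x => exact ⟨_, fun y hy => absurd hy (mem_atom x y)⟩
  | h2 α f ih =>
    refine ⟨_, fun y hy => ?_⟩
    obtain ⟨a, rfl⟩ := (mem_ofFam f y).mp hy
    exact ih a

/-- The set with a given small collection of members. -/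
theorem exists_set (S : Set (USet X)) (hS : Small.{0} S) :
    ∃ x, ¬ IsAtom x ∧ (∀ z, mem z x ↔ z ∈ S) ∧ supp x = ⋃ z : S, supp z.1 := by
  refine ⟨ofFam (fun a : Shrink.{0} S => ((equivShrink S).symm a).1), isAtom_ofFam _, ?_, ?_⟩
  · intro z
    rw [mem_ofFam]
    constructor
    · rintro ⟨a, rfl⟩
      exact ((equivShrink S).symm a).2
    · intro hz
      exact ⟨equivShrink S ⟨z, hz⟩, by simp⟩
  · rw [supp_ofFam]
    apply Set.Subset.antisymm
    · intro b hb
      obtain ⟨a, ha⟩ := Set.mem_iUnion.mp hb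
      exact Set.mem_iUnion.mpr ⟨(equivShrink S).symm a, ha⟩
    · intro b hb
      obtain ⟨a, ha⟩ := Set.mem_iUnion.mp hb
      exact Set.mem_iUnion.mpr ⟨equivShrink S a, by simpa using ha⟩

end USet

end Pool.Agent.Lib_MP_0641b4_lc
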