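import Mathlib
import Pool.Agent.Lib_MP_0641b4_lc.Defs
import Pool.Agent.Lib_MP_0641b4_lc.Order
import Pool.Agent.Lib_MP_0641b4_lc.Universe

set_option autoImplicit false

namespace Pool.Agent.Lib_MP_0641b4_lc

theorem big_K : Big K := big_of_fam (fun _ f => K_bdd_fam f)

theorem image_isWF {S : Set K} (hS : S.IsWF) (σ : K ≃o K) : (σ '' S).IsWF := by
  apply isWF_of_min
  intro T hT hTne
  have h1 : (σ.symm '' T).IsWF := hS.mono (by
    rintro _ ⟨t, ht, rfl⟩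
    obtain ⟨s, hs, rfl⟩ := hT ht
    rwa [OrderIso.symm_apply_apply])
  have h2 : (σ.symm '' T).Nonempty := hTne.image _
  obtain ⟨t, ht, hts⟩ := h1.min_mem h2
  refine ⟨t, ht, fun t' ht' => ?_⟩
  have h3 := h1.min_le h2 ⟨t', ht', rfl⟩
  rw [← hts] at h3
  exact σ.symm.le_iff_le.mp h3

theorem fix_of_image_eq {S : Set K} (hS : S.IsWF) (σ : K ≃o K) (h : σ '' S = S) :
    ∀ a ∈ S, σ a = a := by
  by_contra hcon
  push Not at hcon
  obtain ⟨a0, ha0, ha0'⟩ := hcon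
  have hT : {a | a ∈ S ∧ σ a ≠ a}.IsWF := hS.mono (fun a ha => ha.1)
  have hTne : {a | a ∈ S ∧ σ a ≠ a}.Nonempty := ⟨a0, ha0, ha0'⟩
  obtain ⟨haS, hane⟩ := hT.min_mem hTne
  have hmin : ∀ b ∈ S, b < hT.min hTne → σ b = b := by
    intro b hb hlt
    by_contra hne
    exact absurd (hT.min_le hTne ⟨hb, hne⟩) (not_le.mpr hlt)
  set a := hT.min hTne
  rcases lt_trichotomy (σ a) a with hlt | heq | hgt
  · have h1 : σ a ∈ S := by rw [← h]; exact ⟨a, haS, rfl⟩
    have h2 := hmin _ h1 hlt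
    exact hane (σ.injective h2)
  · exact hane heq
  · have h1 : a ∈ σ '' S := by rw [h]; exact haS
    obtain ⟨b, hb, hba⟩ := h1
    have h2 : b < a := by
      rw [← σ.lt_iff_lt, hba]; exact hgt
    have h3 := hmin b hb h2
    rw [hba] at h3
    exact absurd h3 (ne_of_gt h2)

theorem fix_symm {A : Set K} {σ : K ≃o K} (h : ∀ a ∈ A, σ a = a) : ∀ a ∈ A, σ.symm a = a := by
  intro a ha
  rw [OrderIso.symm_apply_eq]
  exact (h a ha).symm

/-- The objects of the model: sets with urelements from `K`, the support being well-ordered. -/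
def Ob : Type 1 := {q : USet K // q.supp.IsWF}

/-- The action of automorphisms on objects. -/
noncomputable def act (σ : K ≃o K) (x : Ob) : Ob :=
  ⟨x.1.map σ, by rw [USet.supp_map]; exact image_isWF x.2 σ⟩

/-- The classes of the model. -/
def IsCl (C : Set Ob) : Prop :=
  ∃ A : Set K, A.IsWF ∧ Small.{0} A ∧
    ∀ σ : K ≃o K, (∀ a ∈ A, σ a = a) → ∀ x, act σ x ∈ C ↔ x ∈ C

/-- The model. -/
def MM : Str where
  Obj := Ob
  Cls := {C : Set Ob // IsCl C}
  mem := fun x y => USet.mem x.1 y.1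
  Ur := fun x => USet.IsAtom x.1
  memC := fun x C => x ∈ C.1

/-- The support of an object. -/
def sp (x : MM.Obj) : Set K := USet.supp (Subtype.val x)

/-- The underlying set with urelements. -/
def un (x : MM.Obj) : USet K := Subtype.val x

theorem un_injective {x y : MM.Obj} (h : un x = un y) : x = y := Subtype.ext h

theorem sp_wf (x : MM.Obj) : (sp x).IsWF := Subtype.property x

theorem sp_small (x : MM.Obj) : Small.{0} (sp x) := USet.small_supp (un x)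

/-- The action of automorphisms on objects. -/
noncomputable def ac (σ : K ≃o K) (x : MM.Obj) : MM.Obj := act σ x

theorem un_ac (σ : K ≃o K) (x : MM.Obj) : un (ac σ x) = USet.map σ (un x) := rfl

theorem ac_ac (σ τ : K ≃o K) (x : MM.Obj) : ac σ (ac τ x) = ac (τ.trans σ) x :=
  un_injective (USet.map_map σ τ (un x))

theorem ac_of_fix {σ : K ≃o K} {x : MM.Obj} (h : ∀ a ∈ sp x, σ a = a) : ac σ x = x := by
  apply un_injective
  rw [un_ac, USet.map_congr_supp (τ := id) (un x) h, USet.map_id]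

@[simp] theorem ac_symm_ac (σ : K ≃o K) (x : MM.Obj) : ac σ.symm (ac σ x) = x := by
  rw [ac_ac]; exact ac_of_fix (fun a _ => by simp)

@[simp] theorem ac_ac_symm (σ : K ≃o K) (x : MM.Obj) : ac σ (ac σ.symm x) = x := by
  rw [ac_ac]; exact ac_of_fix (fun a _ => by simp)

theorem ac_injective (σ : K ≃o K) : Function.Injective (ac σ) := by
  intro x y h
  rw [← ac_symm_ac σ x, h, ac_symm_ac]

theorem sp_ac (σ : K ≃o K) (x : MM.Obj) : sp (ac σ x) = σ '' sp x := USet.supp_map σ (un x)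

/-- Rigidity. -/
theorem rigid {σ : K ≃o K} {x : MM.Obj} (h : ac σ x = x) : ∀ a ∈ sp x, σ a = a := by
  apply fix_of_image_eq (sp_wf x)
  rw [← sp_ac, h]

/-- Build a class. -/
def mkC (P : MM.Obj → Prop) (A : Set K) (hA : A.IsWF) (hAs : Small.{0} A)
    (h : ∀ σ : K ≃o K, (∀ a ∈ A, σ a = a) → ∀ x, P (ac σ x) ↔ P x) : MM.Cls :=
  ⟨{x | P x}, A, hA, hAs, h⟩

theorem memC_mkC (P : MM.Obj → Prop) (A : Set K) (hA : A.IsWF) (hAs : Small.{0} A)
    (h : ∀ σ : K ≃o K, (∀ a ∈ A, σ a = a) → ∀ x, P (ac σ x) ↔ P x) (x : MM.Obj) :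
    MM.memC x (mkC P A hA hAs h) ↔ P x := Iff.rfl

theorem supp_cls (C : MM.Cls) : ∃ A : Set K, A.IsWF ∧ Small.{0} A ∧
    ∀ σ : K ≃o K, (∀ a ∈ A, σ a = a) → ∀ x, MM.memC (ac σ x) C ↔ MM.memC x C :=
  Subtype.property C

theorem cls_ext {C D : MM.Cls} (h : ∀ x, MM.memC x C ↔ MM.memC x D) : C = D :=
  Subtype.ext (Set.ext h)

theorem exists_actC (σ : K ≃o K) (C : MM.Cls) :
    ∃ D : MM.Cls, ∀ x, MM.memC (ac σ x) D ↔ MM.memC x C := by
  obtain ⟨A, hA, hAs, hAC⟩ := supp_cls C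
  refine ⟨mkC (fun x => MM.memC (ac σ.symm x) C) (σ '' A) (image_isWF hA σ) inferInstance ?_, ?_⟩
  · intro τ hτ x
    have h1 : ac σ.symm (ac τ x) = ac ((σ.trans τ).trans σ.symm) (ac σ.symm x) := by
      rw [← ac_ac, ← ac_ac, ac_ac_symm]
    rw [h1]
    apply hAC
    intro a ha
    simp only [OrderIso.trans_apply]
    rw [hτ _ ⟨a, ha, rfl⟩, OrderIso.symm_apply_apply]
  · intro x
    rw [memC_mkC, ac_symm_ac]

/-- The action on classes. -/
noncomputable def actC (σ : K ≃o K) (C : MM.Cls) : MM.Cls := Classical.choose (exists_actC σ C)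

theorem memC_actC (σ : K ≃o K) (x : MM.Obj) (C : MM.Cls) :
    MM.memC (ac σ x) (actC σ C) ↔ MM.memC x C := Classical.choose_spec (exists_actC σ C) x

theorem actC_actC_symm (σ : K ≃o K) (C : MM.Cls) : actC σ (actC σ.symm C) = C := by
  apply cls_ext
  intro x
  rw [← ac_ac_symm σ x, memC_actC, memC_actC, ac_ac_symm]

theorem actC_injective (σ : K ≃o K) : Function.Injective (actC σ) := by
  intro C D h
  apply cls_ext
  intro x
  rw [← memC_actC σ, h, memC_actC]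

theorem mem_ac (σ : K ≃o K) (x y : MM.Obj) : MM.mem (ac σ x) (ac σ y) ↔ MM.mem x y := by
  constructor
  · intro h
    have h1 : MM.mem (ac σ.symm (ac σ x)) (ac σ.symm (ac σ y)) := USet.mem_map_of_mem σ.symm h
    rwa [ac_symm_ac, ac_symm_ac] at h1
  · exact USet.mem_map_of_mem σ

theorem ur_ac (σ : K ≃o K) (x : MM.Obj) : MM.Ur (ac σ x) ↔ MM.Ur x := USet.isAtom_map σ (un x)

/-- Automorphisms preserve satisfaction. -/
theorem sat_ac (σ : K ≃o K) {n m : ℕ} (φ : Fml n m) (v : Fin n → MM.Obj) (V : Fin m → MM.Cls) :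
    MM.Sat φ (ac σ ∘ v) (actC σ ∘ V) ↔ MM.Sat φ v V := by
  induction φ with
  | eq i j => exact (ac_injective σ).eq_iff
  | mem i j => exact mem_ac σ _ _
  | ur i => exact ur_ac σ _
  | eqC i j => exact (actC_injective σ).eq_iff
  | memC i j => exact memC_actC σ _ _
  | neg φ ih => exact not_congr (ih v V)
  | and φ ψ ih1 ih2 => exact and_congr (ih1 v V) (ih2 v V)
  | all φ ih =>
    show (∀ x, MM.Sat φ (Fin.cons x (ac σ ∘ v)) (actC σ ∘ V)) ↔ ∀ x, MM.Sat φ (Fin.cons x v) V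
    constructor
    · intro h x
      have := h (ac σ x)
      have h2 : (Fin.cons (ac σ x) (ac σ ∘ v) : Fin _ → MM.Obj) = ac σ ∘ (Fin.cons x v) :=
        (Fin.comp_cons (ac σ) x v).symm
      rw [h2] at this
      exact (ih _ _).mp this
    · intro h x
      have := (ih _ _).mpr (h (ac σ.symm x))
      have h2 : ac σ ∘ (Fin.cons (ac σ.symm x) v : Fin _ → MM.Obj) =
          Fin.cons x (ac σ ∘ v) := by
        rw [Fin.comp_cons (ac σ) (ac σ.symm x) v, ac_ac_symm]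
      rw [h2] at this
      exact this
  | allC φ ih =>
    show (∀ x, MM.Sat φ (ac σ ∘ v) (Fin.cons x (actC σ ∘ V))) ↔ ∀ x, MM.Sat φ v (Fin.cons x V)
    constructor
    · intro h x
      have := h (actC σ x)
      have h2 : (Fin.cons (actC σ x) (actC σ ∘ V) : Fin _ → MM.Cls) = actC σ ∘ (Fin.cons x V) :=
        (Fin.comp_cons (actC σ) x V).symm
      rw [h2] at this
      exact (ih _ _).mp this
    · intro h x
      have := (ih _ _).mpr (h (actC σ.symm x))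
      have h2 : actC σ ∘ (Fin.cons (actC σ.symm x) V : Fin _ → MM.Cls) =
          Fin.cons x (actC σ ∘ V) := by
        rw [Fin.comp_cons (actC σ) (actC σ.symm x) V, actC_actC_symm]
      rw [h2] at this
      exact this

theorem comprehension (n m : ℕ) (φ : Fml (n + 1) m) (v : Fin n → MM.Obj) (V : Fin m → MM.Cls) :
    ∃ C : MM.Cls, ∀ x, MM.memC x C ↔ MM.Sat φ (Fin.cons x v) V := by
  have hV := fun j => supp_cls (V j)
  choose A hA hAs hAC using hV
  have hsp : ∀ i, Small.{0} ↥(sp (v i)) := fun i => sp_small (v i)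
  refine ⟨mkC (fun x => MM.Sat φ (Fin.cons x v) V) ((⋃ i, sp (v i)) ∪ ⋃ j, A j) ?_
    inferInstance ?_, fun x => Iff.rfl⟩
  · apply Set.IsWF.union
    · have := (Finset.isWF_bUnion (Finset.univ : Finset (Fin n))
        (f := fun i => sp (v i))).mpr (fun i _ => sp_wf (v i))
      simpa using this
    · have := (Finset.isWF_bUnion (Finset.univ : Finset (Fin m))
        (f := fun i => A i)).mpr (fun i _ => hA i)
      simpa using this
  · intro σ hσ x
    have hv : ac σ ∘ v = v := by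
      funext i
      exact ac_of_fix (fun a ha => hσ a (Or.inl (Set.mem_iUnion.mpr ⟨i, ha⟩)))
    have hV : actC σ ∘ V = V := by
      funext j
      apply cls_ext
      intro y
      have h1 := hAC j σ.symm
        (fix_symm (fun a ha => hσ a (Or.inr (Set.mem_iUnion.mpr ⟨j, ha⟩)))) y
      have h2 := memC_actC σ (ac σ.symm y) (V j)
      rw [ac_ac_symm] at h2
      exact h2.trans h1
    have h2 : ac σ ∘ (Fin.cons x v : Fin _ → MM.Obj) = Fin.cons (ac σ x) v := by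
      conv_rhs => rw [← hv]
      exact Fin.comp_cons (ac σ) x v
    rw [← sat_ac σ φ (Fin.cons x v) V, hV, h2]

/-- Set existence in the model. -/
theorem mkSet (S : Set MM.Obj) (hS : Small.{0} S) (A : Set K) (hA : A.IsWF)
    (hSA : ∀ z ∈ S, sp z ⊆ A) :
    ∃ x : MM.Obj, MM.IsSet x ∧ (∀ z, MM.mem z x ↔ z ∈ S) ∧ sp x ⊆ A := by
  obtain ⟨x, hx1, hx2, hx3⟩ := USet.exists_set (un '' S) inferInstance
  have hxs : x.supp ⊆ A := by
    rw [hx3]
    apply Set.iUnion_subset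
    rintro ⟨_, z, hz, rfl⟩
    exact hSA z hz
  refine ⟨⟨x, hA.mono hxs⟩, hx1, ?_, hxs⟩
  intro z
  show USet.mem (un z) x ↔ z ∈ S
  rw [hx2]
  constructor
  · rintro ⟨z', hz', h⟩
    rwa [← un_injective h]
  · intro hz
    exact ⟨z, hz, rfl⟩

theorem supp_sub {x y : MM.Obj} (h : MM.mem x y) : sp x ⊆ sp y :=
  USet.supp_subset_of_mem h

theorem small_members (x : MM.Obj) : Small.{0} {z | MM.mem z x} := by
  have h1 := USet.small_mem (un x)
  exact small_of_injective (f := fun z : {z | MM.mem z x} =>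
    (⟨un z.1, z.2⟩ : {z | USet.mem z (un x)})) (by
      rintro ⟨a, ha⟩ ⟨b, hb⟩ h
      exact Subtype.ext (un_injective (Subtype.mk.inj h)))

theorem extensionality (x y : MM.Obj) (hx : MM.IsSet x) (hy : MM.IsSet y)
    (h : ∀ z, MM.mem z x ↔ MM.mem z y) : x = y := by
  apply un_injective
  apply USet.ext hx hy
  intro z
  constructor
  · intro hz
    exact (h ⟨z, (sp_wf x).mono (USet.supp_subset_of_mem hz)⟩).mp hz
  · intro hz
    exact (h ⟨z, (sp_wf y).mono (USet.supp_subset_of_mem hz)⟩).mpr hz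

theorem pairing (a b : MM.Obj) : ∃ p, MM.IsPair a b p ∧ sp p ⊆ sp a ∪ sp b := by
  obtain ⟨p, h1, h2, h3⟩ := mkSet {a, b} (by infer_instance) (sp a ∪ sp b)
    ((sp_wf a).union (sp_wf b)) (by
      rintro z (rfl | rfl)
      · exact Set.subset_union_left
      · exact Set.subset_union_right)
  exact ⟨p, ⟨h1, fun z => by rw [h2]; rfl⟩, h3⟩

theorem pair_inj {a b a' b' p : MM.Obj} (h : MM.IsPair a b p) (h' : MM.IsPair a' b' p) :
    (a = a' ∧ b = b') ∨ (a = b' ∧ b = a') := by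
  have ha := (h'.2 a).mp ((h.2 a).mpr (Or.inl rfl))
  have hb := (h'.2 b).mp ((h.2 b).mpr (Or.inr rfl))
  have ha' := (h.2 a').mp ((h'.2 a').mpr (Or.inl rfl))
  have hb' := (h.2 b').mp ((h'.2 b').mpr (Or.inr rfl))
  rcases ha with ha | ha <;> rcases hb with hb | hb
  · subst ha; subst hb
    rcases hb' with hb' | hb' <;> exact Or.inl ⟨rfl, hb'.symm⟩
  · exact Or.inl ⟨ha, hb⟩
  · exact Or.inr ⟨ha, hb⟩
  · subst ha; subst hb
    rcases ha' with ha' | ha' <;> exact Or.inl ⟨ha'.symm, rfl⟩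

theorem opair_inj {a b a' b' p : MM.Obj} (h : MM.IsOPair a b p) (h' : MM.IsOPair a' b' p) :
    a = a' ∧ b = b' := by
  obtain ⟨s, t, h1, h2, h3⟩ := h
  obtain ⟨s', t', h1', h2', h3'⟩ := h'
  rcases pair_inj h3 h3' with ⟨rfl, rfl⟩ | ⟨rfl, rfl⟩
  · have ha : a = a' := by
      rcases pair_inj h1 h1' with ⟨h, -⟩ | ⟨h, -⟩ <;> exact h
    subst ha
    refine ⟨rfl, ?_⟩
    rcases pair_inj h2 h2' with ⟨-, h⟩ | ⟨h, h'⟩
    · exact h
    · rw [h', h]
  · -- `s = t'`, `t = s'`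
    have h4 := pair_inj h1 h2'
    have h5 := pair_inj h2 h1'
    rcases h4 with ⟨h6, h7⟩ | ⟨h6, h7⟩ <;> rcases h5 with ⟨h8, h9⟩ | ⟨h8, h9⟩ <;>
      constructor <;> simp_all

theorem exists_opair (a b : MM.Obj) : ∃ p, MM.IsOPair a b p := by
  obtain ⟨s, hs, -⟩ := pairing a a
  obtain ⟨t, ht, -⟩ := pairing a b
  obtain ⟨p, hp, -⟩ := pairing s t
  exact ⟨p, s, t, hs, ht, hp⟩

theorem sp_opair {a b p : MM.Obj} (h : MM.IsOPair a b p) : sp a ⊆ sp p ∧ sp b ⊆ sp p := by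
  obtain ⟨s, t, h1, h2, h3⟩ := h
  have htp : MM.mem t p := (h3.2 t).mpr (Or.inr rfl)
  have hat : MM.mem a t := (h2.2 a).mpr (Or.inl rfl)
  have hbt : MM.mem b t := (h2.2 b).mpr (Or.inr rfl)
  exact ⟨(supp_sub hat).trans (supp_sub htp), (supp_sub hbt).trans (supp_sub htp)⟩

theorem pair_ac (σ : K ≃o K) {a b p : MM.Obj} (h : MM.IsPair a b p) :
    MM.IsPair (ac σ a) (ac σ b) (ac σ p) := by
  refine ⟨fun hu => h.1 ((ur_ac σ p).mp hu), ?_⟩
  intro z
  rw [← ac_ac_symm σ z, mem_ac, h.2, (ac_injective σ).eq_iff, (ac_injective σ).eq_iff]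

theorem opair_ac (σ : K ≃o K) {a b p : MM.Obj} (h : MM.IsOPair a b p) :
    MM.IsOPair (ac σ a) (ac σ b) (ac σ p) := by
  obtain ⟨s, t, h1, h2, h3⟩ := h
  exact ⟨_, _, pair_ac σ h1, pair_ac σ h2, pair_ac σ h3⟩

/-- Invariance of class relations. -/
theorem rel_ac {R : MM.Cls} {A : Set K}
    (hA : ∀ σ : K ≃o K, (∀ a ∈ A, σ a = a) → ∀ x, MM.memC (ac σ x) R ↔ MM.memC x R)
    {σ : K ≃o K} (hσ : ∀ a ∈ A, σ a = a) {x y : MM.Obj} (h : MM.Rel R x y) :
    MM.Rel R (ac σ x) (ac σ y) := by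
  obtain ⟨p, hp, hpR⟩ := h
  exact ⟨_, opair_ac σ hp, (hA σ hσ p).mpr hpR⟩

/-- Every invariant relation is given by a class. -/
theorem exists_rel (P : MM.Obj → MM.Obj → Prop)
    (h : ∀ σ : K ≃o K, ∀ x y, P x y → P (ac σ x) (ac σ y)) :
    ∃ R : MM.Cls, ∀ x y, MM.Rel R x y ↔ P x y := by
  refine ⟨mkC (fun p => ∃ x y, MM.IsOPair x y p ∧ P x y) ∅ (by simp) inferInstance ?_, ?_⟩
  · intro σ _ p
    constructor
    · rintro ⟨x, y, h1, h2⟩
      refine ⟨ac σ.symm x, ac σ.symm y, ?_, h σ.symm _ _ h2⟩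
      have := opair_ac σ.symm h1
      rwa [ac_symm_ac] at this
    · rintro ⟨x, y, h1, h2⟩
      exact ⟨ac σ x, ac σ y, opair_ac σ h1, h σ _ _ h2⟩
  · intro x y
    constructor
    · rintro ⟨p, hp, x', y', h1, h2⟩
      obtain ⟨rfl, rfl⟩ := opair_inj hp h1
      exact h2
    · intro hP
      obtain ⟨p, hp⟩ := exists_opair x y
      exact ⟨p, hp, x, y, hp, hP⟩

theorem replacement (F : MM.Cls) (hF : MM.Functional F) (x : MM.Obj) (_ : MM.IsSet x) :
    ∃ y, MM.IsSet y ∧ ∀ z, MM.mem z y ↔ ∃ w, MM.mem w x ∧ MM.Rel F w z := by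
  obtain ⟨A, hA, hAs, hAF⟩ := supp_cls F
  have hxs := sp_small x
  have hE : (A ∪ sp x).IsWF := hA.union (sp_wf x)
  have hEs : Small.{0} ↥(A ∪ sp x) := inferInstance
  obtain ⟨y, hy1, hy2, -⟩ := mkSet {z | ∃ w, MM.mem w x ∧ MM.Rel F w z} (by
    have h1 := small_members x
    let g : {w | MM.mem w x} → MM.Obj := fun w =>
      by classical exact if h : ∃ z, MM.Rel F w.1 z then h.choose else w.1
    refine small_subset (s := Set.range g) ?_
    rintro z ⟨w, hw, hwz⟩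
    refine ⟨⟨w, hw⟩, ?_⟩
    have h : ∃ z, MM.Rel F w z := ⟨z, hwz⟩
    simp only [g, dif_pos h]
    exact hF _ _ _ h.choose_spec hwz) (A ∪ sp x) hE (by
    rintro z ⟨w, hw, hwz⟩ e he
    by_contra hne
    obtain ⟨σ, hσ1, hσ2⟩ := move big_K (A ∪ sp x) hE hEs e hne
    have h1 := rel_ac hAF (fun a ha => hσ1 a (Or.inl ha)) hwz
    have h2 : ac σ w = w := ac_of_fix (fun a ha => hσ1 a (Or.inr (supp_sub hw ha)))
    rw [h2] at h1
    exact hσ2 (rigid (hF _ _ _ h1 hwz) e he))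
  exact ⟨y, hy1, hy2⟩

theorem collection : MM.Collection := by
  intro w R _ hR
  obtain ⟨A, hA, hAs, hAR⟩ := supp_cls R
  have hws := sp_small w
  have hE : (A ∪ sp w).IsWF := hA.union (sp_wf w)
  have hEs : Small.{0} ↥(A ∪ sp w) := inferInstance
  have hm := small_members w
  let ι : Type := Shrink.{0} ↥{z | MM.mem z w}
  let e : {z | MM.mem z w} ≃ ι := equivShrink _
  choose g hg using hR
  let y : ι → MM.Obj := fun i => g (e.symm i).1 (e.symm i).2
  obtain ⟨σ, hσ1, hσ2⟩ := amalg big_K (A ∪ sp w) hE hEs ι (fun i => sp (y i))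
    (fun i => sp_wf _) (fun i => sp_small _)
  obtain ⟨v, hv1, hv2, -⟩ := mkSet (Set.range (fun i => ac (σ i) (y i))) inferInstance _ hσ2 (by
    rintro _ ⟨i, rfl⟩
    intro a ha
    rw [sp_ac] at ha
    exact Set.mem_iUnion.mpr ⟨i, ha⟩)
  refine ⟨v, hv1, fun x hx => ?_⟩
  refine ⟨ac (σ (e ⟨x, hx⟩)) (y (e ⟨x, hx⟩)), (hv2 _).mpr ⟨_, rfl⟩, ?_⟩
  have h1 : MM.Rel R x (y (e ⟨x, hx⟩)) := by
    have := hg (e.symm (e ⟨x, hx⟩)).1 (e.symm (e ⟨x, hx⟩)).2
    simpa [y] using this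
  have h2 := rel_ac hAR (fun a ha => hσ1 (e ⟨x, hx⟩) a (Or.inl ha)) h1
  have h3 : ac (σ (e ⟨x, hx⟩)) x = x :=
    ac_of_fix (fun a ha => hσ1 _ a (Or.inr (supp_sub hx ha)))
  rwa [h3] at h2

theorem globalChoice : MM.GlobalChoice := by
  classical
  -- orbits
  let s : Setoid MM.Obj :=
    { r := fun x y => ∃ σ, ac σ x = y
      iseqv := ⟨fun x => ⟨OrderIso.refl K, ac_of_fix (fun _ _ => rfl)⟩,
        fun {x y} ⟨σ, h⟩ => ⟨σ.symm, by rw [← h, ac_symm_ac]⟩,
        fun {x y z} ⟨σ, h⟩ ⟨τ, h'⟩ => ⟨σ.trans τ, by rw [← ac_ac, h, h']⟩⟩ }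
  let rep : MM.Obj → MM.Obj := fun x => (Quotient.mk s x).out
  have hrep1 : ∀ x, ∃ σ, ac σ (rep x) = x := fun x => Quotient.mk_out (s := s) x
  have hrep2 : ∀ σ x, rep (ac σ x) = rep x := by
    intro σ x
    have : Quotient.mk s (ac σ x) = Quotient.mk s x :=
      Quotient.sound (s := s) (show ∃ τ, ac τ (ac σ x) = x from ⟨σ.symm, ac_symm_ac σ x⟩)
    simp only [rep]
    rw [this]
  let ch : MM.Obj → MM.Obj := fun x => if h : ∃ z, MM.mem z x then h.choose else x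
  have hch : ∀ x, (∃ z, MM.mem z x) → MM.mem (ch x) x := by
    intro x h
    simp only [ch, dif_pos h]
    exact h.choose_spec
  have hchs : ∀ x, sp (ch x) ⊆ sp x := by
    intro x
    by_cases h : ∃ z, MM.mem z x
    · exact supp_sub (hch x h)
    · simp only [ch, dif_neg h]; exact subset_rfl
  obtain ⟨G, hG⟩ := exists_rel (fun x y => ∃ σ, ac σ (rep x) = x ∧ y = ac σ (ch (rep x))) (by
    rintro τ x y ⟨σ, h1, h2⟩
    refine ⟨σ.trans τ, ?_, ?_⟩
    · rw [hrep2, ← ac_ac, h1]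
    · rw [hrep2, ← ac_ac, h2])
  refine ⟨G, ?_, ?_⟩
  · intro x y y' h h'
    rw [hG] at h h'
    obtain ⟨σ, h1, rfl⟩ := h
    obtain ⟨τ, h2, rfl⟩ := h'
    have h3 : ac (τ.trans σ.symm) (rep x) = rep x := by
      rw [← ac_ac, h2]
      conv_lhs => rw [← h1]
      rw [ac_symm_ac]
    have h4 : ac (τ.trans σ.symm) (ch (rep x)) = ch (rep x) :=
      ac_of_fix (fun a ha => rigid h3 a (hchs _ ha))
    rw [← ac_ac] at h4
    rw [← h4, ac_ac_symm, h4]
  · intro x _ hne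
    obtain ⟨σ, hσ⟩ := hrep1 x
    refine ⟨ac σ (ch (rep x)), ?_, ?_⟩
    · conv_rhs => rw [← hσ]
      rw [mem_ac]
      apply hch
      obtain ⟨z, hz⟩ := hne
      refine ⟨ac σ.symm z, ?_⟩
      rw [← mem_ac σ, ac_ac_symm, hσ]
      exact hz
    · rw [hG]
      exact ⟨σ, hσ, rfl⟩

theorem urelement (a : MM.Obj) (h : MM.Ur a) (z : MM.Obj) : ¬ MM.mem z a := by
  obtain ⟨x, hx⟩ := (USet.isAtom_iff (un a)).mp h
  intro hz
  have h1 : USet.mem (un z) (un a) := hz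
  rw [hx] at h1
  exact USet.mem_atom _ _ h1

theorem foundation (x : MM.Obj) (h : ∃ z, MM.mem z x) :
    ∃ y, MM.mem y x ∧ ∀ z, MM.mem z y → ¬ MM.mem z x := by
  obtain ⟨z, hz⟩ := h
  obtain ⟨y, ⟨y', hy', rfl⟩, hmin⟩ := USet.wf_mem.has_min (un '' {z | MM.mem z x}) ⟨_, z, hz, rfl⟩
  exact ⟨y', hy', fun z hzy hzx => hmin (un z) ⟨z, hzx, rfl⟩ hzy⟩

theorem union (x : MM.Obj) (_ : MM.IsSet x) :
    ∃ u, MM.IsSet u ∧ ∀ z, MM.mem z u ↔ ∃ y, MM.mem y x ∧ MM.mem z y := by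
  have h1 := small_members x
  have h2 := fun y => small_members y
  obtain ⟨u, hu1, hu2, -⟩ := mkSet {z | ∃ y, MM.mem y x ∧ MM.mem z y} (by
    have : {z | ∃ y, MM.mem y x ∧ MM.mem z y} =
        ⋃ y : {y | MM.mem y x}, {z | MM.mem z y.1} := by
      ext z; simp
    rw [this]
    infer_instance) (sp x) (sp_wf x) (by
    rintro z ⟨y, hy, hz⟩
    exact (supp_sub hz).trans (supp_sub hy))
  exact ⟨u, hu1, hu2⟩

theorem separation (C : MM.Cls) (x : MM.Obj) (_ : MM.IsSet x) :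
    ∃ y, MM.IsSet y ∧ ∀ z, MM.mem z y ↔ MM.mem z x ∧ MM.memC z C := by
  have h1 := small_members x
  obtain ⟨u, hu1, hu2, -⟩ := mkSet {z | MM.mem z x ∧ MM.memC z C}
    (small_subset (s := {z | MM.mem z x}) (fun z hz => hz.1)) (sp x) (sp_wf x) (by
    rintro z ⟨hz, -⟩
    exact supp_sub hz)
  exact ⟨u, hu1, hu2⟩

/-- The support of a set is covered by the supports of its members. -/
theorem sp_set_subset {x : MM.Obj} (hx : MM.IsSet x) {A : Set K}
    (h : ∀ z, MM.mem z x → sp z ⊆ A) : sp x ⊆ A := by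
  have h1 := small_members x
  have hA : (⋃ z : {z | MM.mem z x}, sp z.1).IsWF := (sp_wf x).mono (by
    apply Set.iUnion_subset
    rintro ⟨z, hz⟩
    exact supp_sub hz)
  obtain ⟨y, hy1, hy2, hy3⟩ := mkSet {z | MM.mem z x} h1 _ hA (fun z hz => by
    exact Set.subset_iUnion (fun z : {z | MM.mem z x} => sp z.1) ⟨z, hz⟩)
  have hxy : x = y := extensionality x y hx hy1 (fun z => (hy2 z).symm)
  rw [hxy]
  exact hy3.trans (Set.iUnion_subset (fun z => h z.1 z.2))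

theorem powerSet (x : MM.Obj) (_ : MM.IsSet x) :
    ∃ p, MM.IsSet p ∧ ∀ z, MM.mem z p ↔ (MM.IsSet z ∧ ∀ w, MM.mem w z → MM.mem w x) := by
  have h1 := small_members x
  obtain ⟨u, hu1, hu2, -⟩ := mkSet {z | MM.IsSet z ∧ ∀ w, MM.mem w z → MM.mem w x} (by
    refine small_of_injective (f := fun z : {z | MM.IsSet z ∧ ∀ w, MM.mem w z → MM.mem w x} =>
      ({w | MM.mem w.1 z.1} : Set {w | MM.mem w x})) ?_
    rintro ⟨a, ha⟩ ⟨b, hb⟩ h
    apply Subtype.ext
    apply extensionality a b ha.1 hb.1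
    intro z
    constructor
    · intro hz
      have : (⟨z, ha.2 z hz⟩ : {w | MM.mem w x}) ∈ {w : {w | MM.mem w x} | MM.mem w.1 a} := hz
      simp only at h
      rw [h] at this
      exact this
    · intro hz
      have : (⟨z, hb.2 z hz⟩ : {w | MM.mem w x}) ∈ {w : {w | MM.mem w x} | MM.mem w.1 b} := hz
      simp only at h
      rw [← h] at this
      exact this) (sp x) (sp_wf x) (by
    rintro z ⟨hz1, hz2⟩
    exact sp_set_subset hz1 (fun w hw => supp_sub (hz2 w hw)))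
  exact ⟨u, hu1, hu2⟩

theorem exists_empty : ∃ e : MM.Obj, MM.IsEmptySet e ∧ sp e ⊆ ∅ := by
  obtain ⟨e, h1, h2, h3⟩ := mkSet ∅ inferInstance ∅ (by simp) (by simp)
  exact ⟨e, ⟨h1, fun z hz => by rw [h2] at hz; exact hz⟩, h3⟩

theorem exists_succ (x : MM.Obj) : ∃ y : MM.Obj, MM.IsSucc x y ∧ sp y ⊆ sp x := by
  have h1 := small_members x
  obtain ⟨y, h1, h2, h3⟩ := mkSet (insert x {z | MM.mem z x}) inferInstance (sp x) (sp_wf x) (by
    rintro z (rfl | hz)
    · exact subset_rfl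
    · exact supp_sub hz)
  refine ⟨y, ⟨h1, fun z => ?_⟩, h3⟩
  rw [h2]
  simp only [Set.mem_insert_iff, Set.mem_ofPred_eq]
  exact or_comm

theorem infinity : ∃ w, MM.IsInductive w := by
  obtain ⟨e, he, hes⟩ := exists_empty
  choose S hS hSs using exists_succ
  let N : ℕ → MM.Obj := fun n => Nat.rec e (fun _ x => S x) n
  have hN0 : N 0 = e := rfl
  have hN1 : ∀ n, N (n + 1) = S (N n) := fun n => rfl
  have hNs : ∀ n, sp (N n) ⊆ ∅ := by
    intro n
    induction n with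
    | zero => rw [hN0]; exact hes
    | succ n ih => rw [hN1]; exact (hSs _).trans ih
  obtain ⟨w, h1, h2, -⟩ := mkSet (Set.range N) inferInstance ∅ (by simp) (by
    rintro _ ⟨n, rfl⟩
    exact hNs n)
  refine ⟨w, h1, ⟨e, he, (h2 e).mpr ⟨0, rfl⟩⟩, ?_⟩
  intro n hn
  obtain ⟨k, rfl⟩ := (h2 n).mp hn
  exact ⟨S (N k), hS _, (h2 _).mpr ⟨k + 1, rfl⟩⟩

theorem not_omegaDC : ¬ MM.OmegaDC := by
  intro hDC
  obtain ⟨R, hR⟩ := exists_rel (fun s y => ∃ a : K, un y = USet.atom a ∧ ∀ b ∈ sp s, a < b) (by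
    rintro σ s y ⟨a, h1, h2⟩
    refine ⟨σ a, ?_, ?_⟩
    · rw [un_ac, h1, USet.map_atom]
    · rw [sp_ac]
      rintro _ ⟨b, hb, rfl⟩
      exact σ.lt_iff_lt.mpr (h2 b hb))
  obtain ⟨w, f, hw, hf, hfR⟩ := hDC R (by
    intro w _ n _ s _
    have : ∃ a : K, ∀ b ∈ sp s, a < b := by
      by_cases hne : (sp s).Nonempty
      · obtain ⟨a, ha⟩ := exists_lt ((sp_wf s).min hne)
        exact ⟨a, fun b hb => lt_of_lt_of_le ha ((sp_wf s).min_le hne hb)⟩
      · exact ⟨0, fun b hb => absurd ⟨b, hb⟩ hne⟩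
    obtain ⟨a, ha⟩ := this
    obtain ⟨y, hy⟩ : ∃ y : MM.Obj, un y = USet.atom a :=
      ⟨⟨USet.atom a, by rw [USet.supp_atom]; simp⟩, rfl⟩
    exact ⟨y, (hR s y).mpr ⟨a, hy, ha⟩⟩)
  -- the set of values
  let T : Set K := {a | ∃ n, MM.mem n w ∧ ∃ y, MM.App f n y ∧ un y = USet.atom a}
  have hsub : ∀ n y, MM.App f n y → sp y ⊆ sp f := by
    rintro n y ⟨p, hp, hpf⟩
    exact (sp_opair hp).2.trans (supp_sub hpf)
  have hTf : T ⊆ sp f := by
    rintro a ⟨n, -, y, hy, hya⟩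
    apply hsub n y hy
    show a ∈ USet.supp (un y)
    rw [hya]; rfl
  have hT : T.IsWF := (sp_wf f).mono hTf
  have hval : ∀ n, MM.mem n w → ∃ a, a ∈ T ∧ ∃ t y, MM.IsRestr f n t ∧ MM.App f n y ∧
      un y = USet.atom a ∧ ∀ b ∈ sp t, a < b := by
    intro n hn
    obtain ⟨t, y, h1, h2, h3⟩ := hfR n hn
    rw [hR] at h3
    obtain ⟨a, h4, h5⟩ := h3
    exact ⟨a, ⟨n, hn, y, h2, h4⟩, t, y, h1, h2, h4, h5⟩
  have hTne : T.Nonempty := by
    obtain ⟨e, -, hew⟩ := hw.1.2.1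
    obtain ⟨a, ha, -⟩ := hval e hew
    exact ⟨a, ha⟩
  obtain ⟨n, hn, y, hy, hya⟩ := hT.min_mem hTne
  obtain ⟨k, hk, hkw⟩ := hw.1.2.2 n hn
  obtain ⟨a', ha'T, t, y', h1, h2, h3, h4⟩ := hval k hkw
  have h5 : hT.min hTne ∈ sp t := by
    obtain ⟨p, hp, hpf⟩ := hy
    have h6 : MM.mem p t := (h1.2 p).mpr ⟨hpf, n, y, (hk.2 n).mpr (Or.inr rfl), hp⟩
    apply supp_sub h6
    apply (sp_opair hp).2
    show _ ∈ USet.supp (un y)
    rw [hya]; rfl
  exact absurd (hT.min_le hTne ha'T) (not_le.mpr (h4 _ h5))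

theorem kmu : MM.KMU where
  urelement := urelement
  extensionality := extensionality
  foundation := foundation
  pairing := fun a b => by
    obtain ⟨p, hp, -⟩ := pairing a b
    exact ⟨p, hp⟩
  union := union
  powerSet := powerSet
  infinity := infinity
  separation := separation
  classExtensionality := fun _ _ h => cls_ext h
  comprehension := comprehension
  replacement := replacement

end Pool.Agent.Lib_MP_0641b4_lc
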